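import Pool.Agent.H19.KN.Targets

/-!
# An identity in Milnor K-theory
-/

set_option autoImplicit false

universe u

namespace Pool.Agent.H72.KN

open Pool.Agent.H62.MK
open Pool.Agent.H19.KN
open Polynomial Function

/-- TID: the identity `{1+a, 1+b} = -{1-ab, b(1+a)/(1+b)}`. -/
theorem pf_TID : T_TID.{u} := by
  intro F _ m a b u v w t hu hv hw ht y
  have hv0 : (1 : F) + b ≠ 0 := by rw [← hv]; exact v.ne_zero
  have hw0 : (1 : F) - a * b ≠ 0 := by rw [← hw]; exact w.ne_zero
  have hb : b ≠ 0 := by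
    intro h
    have h1 := t.ne_zero
    rw [ht, h, zero_mul, zero_div] at h1
    exact h1 rfl
  obtain ⟨β, hβ⟩ : ∃ β : Fˣ, (β : F) = b := ⟨Units.mk0 b hb, rfl⟩
  have ht' : t = β * u * v⁻¹ := by
    apply Units.ext
    rw [ht, Units.val_mul, Units.val_mul, Units.val_inv_eq_inv_val, hβ, hu, hv, div_eq_mul_inv]
  have h1 : ((v * w⁻¹ : Fˣ) : F) + ((-β * u * w⁻¹ : Fˣ) : F) = 1 := by
    rw [Units.val_mul, Units.val_mul, Units.val_mul, Units.val_inv_eq_inv_val, Units.val_neg, hβ,
      hu, hv, hw, ← add_mul]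
    have e1 : 1 + b + -b * (1 + a) = 1 - a * b := by ring
    rw [e1, mul_inv_cancel₀ hw0]
  have h2 := cup_cup_eq_zero (n := m) (v * w⁻¹) (-β * u * w⁻¹) h1 y
  have h3 : cup v (cup (-β) y) = 0 := by
    apply cup_cup_eq_zero
    rw [Units.val_neg, hβ, hv]
    ring
  have h4 : cup (-β) y = cup (-1) y + cup β y := by
    rw [← cup_mul]
    congr 2
    simp
  have h5 := cup_cup_self w y
  have h6 := cup_anticomm v u y
  have h7 := cup_anticomm v w y
  rw [cup_mul, cup_inv, cup_mul, cup_mul, cup_inv, map_add, map_add, map_neg, map_add, map_add,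
    map_neg, h3, h6, h7, h5, h4, map_add] at h2
  rw [ht', cup_mul, cup_mul, cup_inv, map_add, map_add, map_neg]
  rw [← sub_eq_zero]
  rw [← neg_eq_zero] at h2
  rw [← h2]
  abel

end Pool.Agent.H72.KN
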